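import Mathlib

/-!
# A dimension free inequality of Hilbert type for tournaments

Let `K` be the Gram matrix of `N` complex vectors of squared norm at most `L`. If `|Im K i j| ≥ 1` for
all `i ≠ j`, then `N ≤ exp (π L)`. For `0 ≤ t ≤ 1` the entrywise exponential of
`π (1 + t) / 2 K + π (1 - t) / 2 conj K` is positive semidefinite, so that
`N ^ 2 ≤ ∑ exp (π x) cos (π t y)`, the sum over the entries `x + i y` of `K`. Integrate this against
`sin (π t)`: the cosine transform `(1 + cos (π y)) / (π (1 - y ^ 2))` of `sin (π t)` is not positive for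
`|y| ≥ 1`, so that only the diagonal remains.
-/

set_option autoImplicit false

open Finset

namespace Pool.Agent.H36.BK.Hil

/-- the entries of the Gram matrix -/
noncomputable def gr {ι m : Type*} [Fintype m] (z : ι → m → ℂ) (i j : ι) : ℂ :=
  ∑ k, (starRingEnd ℂ) (z i k) * z j k

theorem gram_pow {ι m : Type*} [Fintype ι] [Fintype m] (z : ι → m → ℂ) (n : ℕ) :
    0 ≤ (∑ i, ∑ j, (gr z i j) ^ n).re := by
  have key : ∑ i, ∑ j, (gr z i j) ^ n =
      ∑ f : Fin n → m, ((Complex.normSq (∑ j, ∏ r, z j (f r)) : ℝ) : ℂ) := by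
    have h1 : ∀ i j, (gr z i j) ^ n =
        ∑ f : Fin n → m, (starRingEnd ℂ) (∏ r, z i (f r)) * ∏ r, z j (f r) := by
      intro i j
      unfold gr
      rw [Fintype.sum_pow]
      apply sum_congr rfl
      intro f _
      rw [map_prod, ← prod_mul_distrib]
    calc ∑ i, ∑ j, (gr z i j) ^ n
        = ∑ i, ∑ j, ∑ f : Fin n → m, (starRingEnd ℂ) (∏ r, z i (f r)) * ∏ r, z j (f r) := by
          simp only [h1]
      _ = ∑ i, ∑ f : Fin n → m, ∑ j, (starRingEnd ℂ) (∏ r, z i (f r)) * ∏ r, z j (f r) :=
          sum_congr rfl fun i _ => sum_comm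
      _ = ∑ f : Fin n → m, ∑ i, ∑ j, (starRingEnd ℂ) (∏ r, z i (f r)) * ∏ r, z j (f r) := sum_comm
      _ = ∑ f : Fin n → m, ((Complex.normSq (∑ j, ∏ r, z j (f r)) : ℝ) : ℂ) := by
          apply sum_congr rfl
          intro f _
          rw [Complex.normSq_eq_conj_mul_self, map_sum, sum_mul_sum]
  rw [key, ← Complex.ofReal_sum, Complex.ofReal_re]
  exact sum_nonneg fun _ _ => Complex.normSq_nonneg _

/-- the sum of the entries of the entrywise exponential of a Gram matrix -/
theorem gram_exp {ι m : Type*} [Fintype ι] [Fintype m] (z : ι → m → ℂ) :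
    (Fintype.card ι : ℝ) ^ 2 ≤ ∑ i, ∑ j, (Complex.exp (gr z i j)).re := by
  have h0 : ∀ i j, HasSum (fun n : ℕ => ((gr z i j) ^ n / (n.factorial : ℂ)).re)
      (Complex.exp (gr z i j)).re := by
    intro i j
    have h := NormedSpace.expSeries_div_hasSum_exp (gr z i j)
    rw [← Complex.exp_eq_exp_ℂ] at h
    exact Complex.reCLM.hasSum h
  have h1 : HasSum (fun n : ℕ => ∑ i, ∑ j, ((gr z i j) ^ n / (n.factorial : ℂ)).re)
      (∑ i, ∑ j, (Complex.exp (gr z i j)).re) :=
    hasSum_sum fun i _ => hasSum_sum fun j _ => h0 i j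
  have h2 : ∀ n : ℕ, ∑ i, ∑ j, ((gr z i j) ^ n / (n.factorial : ℂ)).re =
      (∑ i, ∑ j, (gr z i j) ^ n).re / n.factorial := by
    intro n
    rw [Complex.re_sum, sum_div]
    apply sum_congr rfl
    intro i _
    rw [Complex.re_sum, sum_div]
    apply sum_congr rfl
    intro j _
    rw [show ((n.factorial : ℕ) : ℂ) = ((n.factorial : ℝ) : ℂ) by push_cast; rfl,
      Complex.div_ofReal_re]
  have h3 := le_hasSum h1 0 (fun n _ => by
    rw [h2]
    exact div_nonneg (gram_pow z n) (by positivity))
  rw [h2] at h3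
  simp only [pow_zero, sum_const, card_univ, nsmul_eq_mul, mul_one, Nat.factorial_zero,
    Nat.cast_one, div_one] at h3
  have h4 : (((Fintype.card ι : ℂ) * (Fintype.card ι : ℂ))).re = (Fintype.card ι : ℝ) ^ 2 := by
    rw [← Nat.cast_mul, Complex.natCast_re, Nat.cast_mul]
    ring
  rw [h4] at h3
  exact h3

/-- the inequality for every frequency -/
theorem gram_cos {ι m : Type*} [Fintype ι] [Fintype m] (z : ι → m → ℂ) {t : ℝ} (ht : 0 ≤ t)
    (ht1 : t ≤ 1) : (Fintype.card ι : ℝ) ^ 2 ≤
      ∑ i, ∑ j, Real.exp (Real.pi * (gr z i j).re) * Real.cos (Real.pi * t * (gr z i j).im) := by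
  have hpi := Real.pi_pos
  obtain ⟨a, ha⟩ : ∃ a : ℝ, a = Real.sqrt (Real.pi * (1 + t) / 2) := ⟨_, rfl⟩
  obtain ⟨b, hb⟩ : ∃ b : ℝ, b = Real.sqrt (Real.pi * (1 - t) / 2) := ⟨_, rfl⟩
  have ha2 : a * a = Real.pi * (1 + t) / 2 := by
    rw [ha]; exact Real.mul_self_sqrt (by positivity)
  have hb2 : b * b = Real.pi * (1 - t) / 2 := by
    rw [hb]
    refine Real.mul_self_sqrt ?_
    have : 0 ≤ 1 - t := by linarith
    positivity
  have h := gram_exp (ι := ι) (m := m ⊕ m)
    (fun i k => Sum.elim (fun k => (a : ℂ) * z i k) (fun k => (b : ℂ) * (starRingEnd ℂ) (z i k)) k)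
  refine h.trans_eq ?_
  apply sum_congr rfl
  intro i _
  apply sum_congr rfl
  intro j _
  have e1 : gr (fun i k => Sum.elim (fun k => (a : ℂ) * z i k)
      (fun k => (b : ℂ) * (starRingEnd ℂ) (z i k)) k) i j =
      ((a * a : ℝ) : ℂ) * gr z i j + ((b * b : ℝ) : ℂ) * (starRingEnd ℂ) (gr z i j) := by
    unfold gr
    rw [Fintype.sum_sum_type, map_sum, mul_sum, mul_sum]
    congr 1
    · apply sum_congr rfl
      intro k _
      simp only [Sum.elim_inl, map_mul, Complex.conj_ofReal]
      push_cast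
      ring
    · apply sum_congr rfl
      intro k _
      simp only [Sum.elim_inr, map_mul, Complex.conj_ofReal, Complex.conj_conj]
      push_cast
      ring
  rw [e1, Complex.exp_re]
  congr 1
  · congr 1
    simp only [Complex.add_re, Complex.re_ofReal_mul, Complex.conj_re]
    rw [ha2, hb2]
    ring
  · congr 1
    simp only [Complex.add_im, Complex.im_ofReal_mul, Complex.conj_im]
    rw [ha2, hb2]
    ring

/-- the cosine transform of `sin (π t)` -/
theorem cos_transform {y : ℝ} (hy : y ^ 2 ≠ 1) :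
    ∫ t in (0 : ℝ)..1, Real.sin (Real.pi * t) * Real.cos (Real.pi * t * y) =
      (1 + Real.cos (Real.pi * y)) / (Real.pi * (1 - y ^ 2)) := by
  have hpi := Real.pi_ne_zero
  have hy' : y ^ 2 - 1 ≠ 0 := sub_ne_zero.2 hy
  have hy2 : 1 - y ^ 2 ≠ 0 := sub_ne_zero.2 (Ne.symm hy)
  have hd : ∀ t ∈ Set.uIcc (0 : ℝ) 1, HasDerivAt (fun t : ℝ =>
      (y * (Real.sin (Real.pi * t) * Real.sin (Real.pi * t * y)) +
        Real.cos (Real.pi * t) * Real.cos (Real.pi * t * y)) / (Real.pi * (y ^ 2 - 1)))
      (Real.sin (Real.pi * t) * Real.cos (Real.pi * t * y)) t := by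
    intro t _
    have d1 : HasDerivAt (fun t : ℝ => Real.pi * t) Real.pi t := by
      simpa using (hasDerivAt_id t).const_mul Real.pi
    have d2 : HasDerivAt (fun t : ℝ => Real.pi * t * y) (Real.pi * y) t := d1.mul_const y
    have s1 := d1.sin
    have s2 := d2.sin
    have c1 := d1.cos
    have c2 := d2.cos
    have h := (((s1.mul s2).const_mul y).add (c1.mul c2)).div_const (Real.pi * (y ^ 2 - 1))
    refine h.congr_deriv ?_
    field_simp
    ring
  rw [intervalIntegral.integral_eq_sub_of_hasDerivAt hd (by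
    apply Continuous.intervalIntegrable
    fun_prop)]
  simp only [mul_zero, mul_one, zero_mul, Real.sin_zero, Real.cos_zero, Real.sin_pi, Real.cos_pi]
  rw [div_sub_div_same, div_eq_div_iff (mul_ne_zero hpi hy') (mul_ne_zero hpi hy2)]
  ring

theorem cos_transform_nonpos {y : ℝ} (hy : 1 ≤ |y|) :
    ∫ t in (0 : ℝ)..1, Real.sin (Real.pi * t) * Real.cos (Real.pi * t * y) ≤ 0 := by
  have hpi := Real.pi_pos
  have hy2 : 1 ≤ y ^ 2 := by
    rw [← sq_abs]
    exact one_le_pow₀ hy
  rcases hy2.lt_or_eq with h | h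
  · rw [cos_transform h.ne']
    apply div_nonpos_of_nonneg_of_nonpos
    · have := Real.neg_one_le_cos (Real.pi * y)
      linarith
    · nlinarith
  · have e : ∀ t : ℝ, Real.cos (Real.pi * t * y) = Real.cos (Real.pi * t) := by
      intro t
      have : y = 1 ∨ y = -1 := by
        have h2 : (y - 1) * (y + 1) = 0 := by linarith [h]
        rcases mul_eq_zero.1 h2 with h3 | h3
        · left; linarith
        · right; linarith
      rcases this with rfl | rfl
      · rw [mul_one]
      · rw [mul_neg, mul_one, Real.cos_neg]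
    simp only [e]
    have hd : ∀ t ∈ Set.uIcc (0 : ℝ) 1, HasDerivAt (fun t : ℝ =>
        (Real.sin (Real.pi * t) * Real.sin (Real.pi * t)) / (2 * Real.pi))
        (Real.sin (Real.pi * t) * Real.cos (Real.pi * t)) t := by
      intro t _
      have d1 : HasDerivAt (fun t : ℝ => Real.pi * t) Real.pi t := by
        simpa using (hasDerivAt_id t).const_mul Real.pi
      have s1 := d1.sin
      have h := (s1.mul s1).div_const (2 * Real.pi)
      refine h.congr_deriv ?_
      field_simp
      ring
    rw [intervalIntegral.integral_eq_sub_of_hasDerivAt hd (by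
      apply Continuous.intervalIntegrable
      fun_prop)]
    simp

/-- HILBERT'S INEQUALITY FOR TOURNAMENTS -/
theorem tournament {ι m : Type*} [Fintype ι] [Fintype m] [Nonempty ι] (z : ι → m → ℂ) {L : ℝ}
    (hL : ∀ i, (gr z i i).re ≤ L) (hI : ∀ i j, i ≠ j → 1 ≤ |(gr z i j).im|) :
    (Fintype.card ι : ℝ) ≤ Real.exp (Real.pi * L) := by
  classical
  have hpi := Real.pi_pos
  set N : ℝ := (Fintype.card ι : ℝ) with hN
  have hN0 : 0 < N := by
    rw [hN]
    exact_mod_cast Fintype.card_pos
  set I : ℝ → ℝ := fun y => ∫ t in (0 : ℝ)..1, Real.sin (Real.pi * t) * Real.cos (Real.pi * t * y)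
    with hIdef
  have hI0 : I 0 = 2 / Real.pi := by
    simp only [hIdef]
    rw [cos_transform (by norm_num)]
    simp
    norm_num
  have hii : ∀ i, (gr z i i).im = 0 := by
    intro i
    unfold gr
    rw [Complex.im_sum]
    apply sum_eq_zero
    intro k _
    rw [← Complex.normSq_eq_conj_mul_self, Complex.ofReal_im]
  have h1 : 0 ≤ ∫ t in (0 : ℝ)..1, Real.sin (Real.pi * t) *
      (∑ i, ∑ j, Real.exp (Real.pi * (gr z i j).re) * Real.cos (Real.pi * t * (gr z i j).im) -
        N ^ 2) := by
    apply intervalIntegral.integral_nonneg (by norm_num)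
    intro t ht
    apply mul_nonneg
    · apply Real.sin_nonneg_of_nonneg_of_le_pi
      · exact mul_nonneg hpi.le ht.1
      · have := mul_le_mul_of_nonneg_left ht.2 hpi.le
        linarith
    · have := gram_cos z ht.1 ht.2
      linarith
  have h2 : ∫ t in (0 : ℝ)..1, Real.sin (Real.pi * t) *
      (∑ i, ∑ j, Real.exp (Real.pi * (gr z i j).re) * Real.cos (Real.pi * t * (gr z i j).im) -
        N ^ 2) = ∑ i, ∑ j, Real.exp (Real.pi * (gr z i j).re) * I (gr z i j).im - N ^ 2 * I 0 := by
    have e1 : ∀ t : ℝ, Real.sin (Real.pi * t) *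
      (∑ i, ∑ j, Real.exp (Real.pi * (gr z i j).re) * Real.cos (Real.pi * t * (gr z i j).im) -
        N ^ 2) = ∑ i, ∑ j, Real.exp (Real.pi * (gr z i j).re) *
          (Real.sin (Real.pi * t) * Real.cos (Real.pi * t * (gr z i j).im)) -
        N ^ 2 * (Real.sin (Real.pi * t) * Real.cos (Real.pi * t * 0)) := by
      intro t
      rw [mul_zero, Real.cos_zero, mul_sub, mul_sum]
      congr 1
      · apply sum_congr rfl
        intro i _
        rw [mul_sum]
        apply sum_congr rfl
        intro j _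
        ring
      · ring
    simp only [e1]
    rw [intervalIntegral.integral_sub, intervalIntegral.integral_finset_sum,
      intervalIntegral.integral_const_mul]
    · congr 1
      apply sum_congr rfl
      intro i _
      rw [intervalIntegral.integral_finset_sum]
      · apply sum_congr rfl
        intro j _
        rw [intervalIntegral.integral_const_mul]
      · intro j _
        apply Continuous.intervalIntegrable
        fun_prop
    · intro i _
      apply Continuous.intervalIntegrable
      fun_prop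
    · apply Continuous.intervalIntegrable
      fun_prop
    · apply Continuous.intervalIntegrable
      fun_prop
  rw [h2] at h1
  have h3 : ∑ i, ∑ j, Real.exp (Real.pi * (gr z i j).re) * I (gr z i j).im ≤
      ∑ _i : ι, Real.exp (Real.pi * L) * (2 / Real.pi) := by
    apply sum_le_sum
    intro i _
    rw [← add_sum_erase _ _ (mem_univ i)]
    have h4 : ∑ j ∈ univ.erase i, Real.exp (Real.pi * (gr z i j).re) * I (gr z i j).im ≤ 0 := by
      apply sum_nonpos
      intro j hj
      apply mul_nonpos_of_nonneg_of_nonpos (Real.exp_pos _).le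
      exact cos_transform_nonpos (hI i j (Ne.symm (ne_of_mem_erase hj)))
    have h5 : Real.exp (Real.pi * (gr z i i).re) * I (gr z i i).im ≤
        Real.exp (Real.pi * L) * (2 / Real.pi) := by
      rw [hii, hI0]
      apply mul_le_mul_of_nonneg_right _ (by positivity)
      apply Real.exp_le_exp.2
      exact mul_le_mul_of_nonneg_left (hL i) hpi.le
    linarith
  rw [sum_const, card_univ, nsmul_eq_mul, ← hN] at h3
  rw [hI0] at h1
  have h6 : N ^ 2 * (2 / Real.pi) ≤ N * (Real.exp (Real.pi * L) * (2 / Real.pi)) := by linarith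
  have h7 : 0 < 2 / Real.pi := by positivity
  have h8 : N * (N * (2 / Real.pi)) ≤ N * (Real.exp (Real.pi * L) * (2 / Real.pi)) := by
    calc N * (N * (2 / Real.pi)) = N ^ 2 * (2 / Real.pi) := by ring
      _ ≤ _ := h6
  exact le_of_mul_le_mul_right (le_of_mul_le_mul_left h8 hN0) h7

end Pool.Agent.H36.BK.Hil
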